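import Mathlib

/-!
In an odd base no even positive integer is elated: the function keeps even numbers even.
-/

namespace Pool.Agent.Results.MP_bebd57_nt.OddBases

/-- the `b`-elated function: the leading digit of `a` in base `b` times the sum of the squares of
all digits (`Nat.digits b a` lists the digits, the leading digit last) -/
def elatedMap (b a : ℕ) : ℕ :=
  (Nat.digits b a).getLastD 0 * ((Nat.digits b a).map (fun d => d ^ 2)).sum

theorem sum_sq_mod (l : List ℕ) : (l.map (fun d => d ^ 2)).sum % 2 = l.sum % 2 := by
  induction l with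
  | nil => rfl
  | cons d l ih =>
    rw [List.map_cons, List.sum_cons, List.sum_cons, Nat.add_mod, ih, Nat.add_mod d l.sum]
    have h : d ^ 2 % 2 = d % 2 := by
      rcases Nat.mod_two_eq_zero_or_one d with h | h <;> rw [Nat.pow_mod, h]
    rw [h]

theorem even_elatedMap {b a : ℕ} (hb : Odd b) (ha : Even a) : Even (elatedMap b a) := by
  have h1 : a ≡ (Nat.digits b a).sum [MOD 2] :=
    Nat.modEq_digits_sum 2 b (Nat.odd_iff.1 hb) a
  have h2 : Even ((Nat.digits b a).map (fun d => d ^ 2)).sum := by
    rw [Nat.even_iff, sum_sq_mod, ← h1]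
    exact Nat.even_iff.1 ha
  exact h2.mul_left _

theorem result (b : ℕ) (hb : Odd b) (a : ℕ) (ha : Even a) (k : ℕ) :
    (elatedMap b)^[k] a ≠ 1 := by
  have h : Even ((elatedMap b)^[k] a) := by
    induction k with
    | zero => exact ha
    | succ k ih =>
      rw [Function.iterate_succ_apply']
      exact even_elatedMap hb ih
  intro h1
  rw [h1] at h
  exact absurd h (by decide)

end Pool.Agent.Results.MP_bebd57_nt.OddBases
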