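import Mathlib

/-!
In the base `c ^ k` the elated function maps powers of `c` to powers of `c`.  The number `c ^ e` is
elated if and only if `k` divides `3 ^ m * e` for some `m`.  So in a base which is a perfect `k`-th
power, where `k` is not a power of three (all squares, all fifth powers, ...), there are positive
integers which are not elated.
-/

namespace Pool.Agent.Results.MP_bebd57_nt.PerfectPowers

/-- the `b`-elated function: the leading digit of `a` in base `b` times the sum of the squares of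
all digits (`Nat.digits b a` lists the digits, the leading digit last) -/
def elatedMap (b a : ℕ) : ℕ :=
  (Nat.digits b a).getLastD 0 * ((Nat.digits b a).map (fun d => d ^ 2)).sum

theorem map_pow {c k : ℕ} (hc : 2 ≤ c) (hk : 1 ≤ k) (e : ℕ) :
    elatedMap (c ^ k) (c ^ e) = c ^ (3 * (e % k)) := by
  have hb : 1 < c ^ k := Nat.one_lt_pow (by omega) (by omega)
  have h0 : 0 < c ^ (e % k) := Nat.pow_pos (by omega)
  have h1 : c ^ (e % k) < c ^ k := Nat.pow_lt_pow_right (by omega) (Nat.mod_lt _ (by omega))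
  have h2 : c ^ e = (c ^ k) ^ (e / k) * c ^ (e % k) := by
    rw [← pow_mul, ← pow_add, Nat.div_add_mod]
  have h3 : Nat.digits (c ^ k) (c ^ e) = List.replicate (e / k) 0 ++ [c ^ (e % k)] := by
    rw [h2, Nat.digits_base_pow_mul hb h0, Nat.digits_of_lt _ _ h0.ne' h1]
  rw [elatedMap, h3]
  simp only [List.getLastD_concat, List.map_append, List.map_replicate, List.map_cons, List.map_nil,
    List.sum_append, List.sum_replicate, List.sum_cons, List.sum_nil]
  ring

/-- The exponents of the iterates. -/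
def expo (k e : ℕ) : ℕ → ℕ
  | 0 => e
  | m + 1 => 3 * (expo k e m % k)

theorem iterate_pow {c k : ℕ} (hc : 2 ≤ c) (hk : 1 ≤ k) (e m : ℕ) :
    (elatedMap (c ^ k))^[m] (c ^ e) = c ^ expo k e m := by
  induction m with
  | zero => rfl
  | succ m ih => rw [Function.iterate_succ_apply', ih, map_pow hc hk, expo]

theorem expo_mod (k e m : ℕ) : expo k e m ≡ 3 ^ m * e [MOD k] := by
  induction m with
  | zero => rw [expo, pow_zero, one_mul]
  | succ m ih =>
    rw [expo, pow_succ', mul_assoc]
    exact ((Nat.mod_modEq _ _).trans ih).mul_left 3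

/-- Let `c ≥ 2` and `k ≥ 1`.  In the base `c ^ k` the number `c ^ e` is elated if and only if `k`
divides `3 ^ m * e` for some `m`.  In particular, if `k` is not a power of three then `c` is not
elated. -/
theorem result (c k : ℕ) (hc : 2 ≤ c) (hk : 1 ≤ k) :
    (∀ e : ℕ, (∃ m, (elatedMap (c ^ k))^[m] (c ^ e) = 1) ↔ ∃ m, k ∣ 3 ^ m * e) ∧
      ((∀ j, k ≠ 3 ^ j) → ∀ m, (elatedMap (c ^ k))^[m] c ≠ 1) := by
  have key : ∀ e : ℕ, (∃ m, (elatedMap (c ^ k))^[m] (c ^ e) = 1) ↔ ∃ m, k ∣ 3 ^ m * e := by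
    intro e
    constructor
    · rintro ⟨m, hm⟩
      rw [iterate_pow hc hk, Nat.pow_eq_one] at hm
      have h0 : expo k e m = 0 := by omega
      have h1 := expo_mod k e m
      rw [h0] at h1
      exact ⟨m, (Nat.modEq_zero_iff_dvd.1 h1.symm)⟩
    · rintro ⟨m, hm⟩
      refine ⟨m + 1, ?_⟩
      have h1 : expo k e m % k = 0 :=
        Nat.mod_eq_zero_of_dvd (Nat.modEq_zero_iff_dvd.1
          ((expo_mod k e m).trans (Nat.modEq_zero_iff_dvd.2 hm)))
      rw [iterate_pow hc hk, expo, h1, mul_zero, pow_zero]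
  refine ⟨key, fun h3 m hm => ?_⟩
  obtain ⟨m', hm'⟩ := (key 1).1 ⟨m, by rw [pow_one]; exact hm⟩
  rw [mul_one] at hm'
  obtain ⟨j, -, hj⟩ := (Nat.dvd_prime_pow Nat.prime_three).1 hm'
  exact h3 j hj

end Pool.Agent.Results.MP_bebd57_nt.PerfectPowers
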