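import Mathlib

/-!
The bases in which the elated function has a fixed point with two digits.
-/

namespace Pool.Agent.Results.MP_bebd57_nt.TwoDigitFixed

/-- the `b`-elated function: the leading digit of `a` in base `b` times the sum of the squares of
all digits (`Nat.digits b a` lists the digits, the leading digit last) -/
def elatedMap (b a : ℕ) : ℕ :=
  (Nat.digits b a).getLastD 0 * ((Nat.digits b a).map (fun d => d ^ 2)).sum

theorem map_two {b x y : ℕ} (hb : 1 < b) (hx : 1 ≤ x) (hxb : x < b) (hyb : y < b) :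
    elatedMap b (y + b * x) = x * (y ^ 2 + x ^ 2) := by
  have h : Nat.digits b (y + b * x) = [y, x] := by
    rw [Nat.digits_add b hb y x hyb (Or.inr (by omega)), Nat.digits_of_lt b x (by omega) hxb]
  rw [elatedMap, h]
  simp

theorem fixed_iff (b : ℕ) (hb : 2 ≤ b) :
    (∃ a, b ≤ a ∧ a < b ^ 2 ∧ elatedMap b a = a) ↔
      ∃ x z, 1 ≤ x ∧ b + z = x ^ 2 * (1 + z ^ 2) := by
  constructor
  · rintro ⟨a, h1, h2, h3⟩
    have e1 : a % b + b * (a / b) = a := Nat.mod_add_div a b
    have hx : 1 ≤ a / b := (Nat.one_le_div_iff (by omega)).2 h1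
    have hxb : a / b < b := by
      rw [Nat.div_lt_iff_lt_mul (by omega)]
      rw [pow_two] at h2
      exact h2
    have hyb : a % b < b := Nat.mod_lt _ (by omega)
    have h4 := map_two (by omega : 1 < b) hx hxb hyb
    rw [e1, h3] at h4
    generalize a / b = x at *
    generalize a % b = y at *
    have h5 : x ∣ y := by
      have : x ∣ y + b * x := by
        rw [e1, h4]
        exact dvd_mul_right _ _
      exact (Nat.dvd_add_left (dvd_mul_left x b)).1 this
    obtain ⟨z, rfl⟩ := h5
    refine ⟨x, z, hx, ?_⟩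
    have h6 : x * (z + b) = x * (x ^ 2 * (1 + z ^ 2)) := by
      calc x * (z + b) = x * z + b * x := by ring
        _ = x * ((x * z) ^ 2 + x ^ 2) := by rw [e1, h4]
        _ = x * (x ^ 2 * (1 + z ^ 2)) := by ring
    have h7 := Nat.eq_of_mul_eq_mul_left (by omega) h6
    omega
  · rintro ⟨x, z, hx, h⟩
    have hx' : x < b ∧ x * z < b := by
      rcases Nat.lt_or_ge x 2 with h2 | h2
      · obtain rfl : x = 1 := by omega
        have hz : 2 ≤ z := by
          by_contra hc
          have : z = 0 ∨ z = 1 := by omega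
          rcases this with rfl | rfl <;> omega
        constructor <;> nlinarith
      · constructor
        · have a1 : 2 * x ≤ x ^ 2 := by nlinarith
          have a2 : z ≤ z ^ 2 := Nat.le_self_pow (by norm_num) z
          have a3 : z ^ 2 ≤ x ^ 2 * z ^ 2 := Nat.le_mul_of_pos_left _ (by positivity)
          have a4 : x ^ 2 * (1 + z ^ 2) = x ^ 2 + x ^ 2 * z ^ 2 := by ring
          rw [a4] at h
          generalize x ^ 2 * z ^ 2 = u at *
          generalize z ^ 2 = w at *
          generalize x ^ 2 = t at *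
          omega
        · by_contra hc
          push Not at hc
          nlinarith [mul_le_mul h2 h2 (by norm_num) (by omega)]
    refine ⟨x * z + b * x, ?_, ?_, ?_⟩
    · nlinarith
    · nlinarith [hx'.1, hx'.2]
    · rw [map_two (by omega) hx hx'.1 hx'.2]
      have e : x * ((x * z) ^ 2 + x ^ 2) = x * (x ^ 2 * (1 + z ^ 2)) := by ring
      rw [e, ← h]
      ring

/-- Let `b ≥ 2`.  The `b`-elated function has a fixed point with two digits in base `b` if and only
if `b = x² (1 + z²) - z` for some `x ≥ 1` and `z ≥ 0`; and in each of these bases some positive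
integer is not elated. -/
theorem result (b : ℕ) (hb : 2 ≤ b) :
    ((∃ a, b ≤ a ∧ a < b ^ 2 ∧ elatedMap b a = a) ↔
      ∃ x z, 1 ≤ x ∧ b + z = x ^ 2 * (1 + z ^ 2)) ∧
    ((∃ x z, 1 ≤ x ∧ b + z = x ^ 2 * (1 + z ^ 2)) →
      ∃ a, 0 < a ∧ ∀ m, (elatedMap b)^[m] a ≠ 1) := by
  refine ⟨fixed_iff b hb, fun h => ?_⟩
  obtain ⟨a, h1, -, h3⟩ := (fixed_iff b hb).2 h
  refine ⟨a, by omega, fun m hm => ?_⟩
  rw [Function.iterate_fixed h3] at hm
  omega

end Pool.Agent.Results.MP_bebd57_nt.TwoDigitFixed
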